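import Pool.Agent.J4H12.TB.Stm

/-!
# Project TB (MP_877ce7_an): comparison lemmas, and (FR)
-/

set_option autoImplicit false

namespace Pool.Agent.J4H67.TB

open Pool.Agent.J4H12.TB Filter Topology Set

/-- comparison of increments -/
lemma cmp {f g f' g' : ℝ → ℝ} {a b : ℝ} (hab : a ≤ b)
    (hf : ∀ x ∈ Icc a b, HasDerivAt f (f' x) x) (hg : ∀ x ∈ Icc a b, HasDerivAt g (g' x) x)
    (h : ∀ x ∈ Icc a b, f' x ≤ g' x) : f b - f a ≤ g b - g a := by
  have hd : ∀ x ∈ Icc a b, HasDerivAt (fun y => g y - f y) (g' x - f' x) x :=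
    fun x hx => (hg x hx).sub (hf x hx)
  have hm : MonotoneOn (fun y => g y - f y) (Icc a b) := by
    apply monotoneOn_of_deriv_nonneg (convex_Icc a b)
    · exact fun x hx => (hd x hx).continuousAt.continuousWithinAt
    · intro x hx
      rw [interior_Icc] at hx
      exact (hd x (Ioo_subset_Icc_self hx)).differentiableAt.differentiableWithinAt
    · intro x hx
      rw [interior_Icc] at hx
      rw [(hd x (Ioo_subset_Icc_self hx)).deriv]
      have := h x (Ioo_subset_Icc_self hx)
      linarith
  have := hm (left_mem_Icc.2 hab) (right_mem_Icc.2 hab) hab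
  simp only at this
  linarith

/-- comparison of increments, absolute values -/
lemma cmp_abs {f g f' g' : ℝ → ℝ} {a b : ℝ} (hab : a ≤ b)
    (hf : ∀ x ∈ Icc a b, HasDerivAt f (f' x) x) (hg : ∀ x ∈ Icc a b, HasDerivAt g (g' x) x)
    (h : ∀ x ∈ Icc a b, |f' x| ≤ g' x) : |f b - f a| ≤ g b - g a := by
  rw [abs_le]
  constructor
  · have := cmp (f := fun x => - f x) (f' := fun x => - f' x) hab
      (fun x hx => (hf x hx).neg) hg (fun x hx => (neg_le_abs _).trans (h x hx))
    beta_reduce at this
    linarith
  · exact cmp hab hf hg (fun x hx => (le_abs_self _).trans (h x hx))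

/-- (FR) -/
theorem t_FR (hB : S_BAS) : S_FR := by
  intro m hm V hV
  obtain ⟨C0, hC0, hBas⟩ := hB m hm
  refine ⟨2 + √(2 * V), by nlinarith [Real.sqrt_nonneg (2 * V)], ?_⟩
  intro q v hS hSpd hJ0 hr0 t ht
  have B := hBas 1 q v hS
  set s2 := √(2 * V) with hs2
  have hs20 : 0 ≤ s2 := Real.sqrt_nonneg _
  -- J t ≥ 2 t
  have hJ : ∀ x, 0 ≤ x → 2 * x ≤ J m q v x := by
    intro x hx
    have := cmp (f := fun y : ℝ => 2 * y) (f' := fun _ => 2) (g := J m q v)
      (g' := fun y => 2 * 1 + U m q y) hx
      (fun y _ => by simpa using (hasDerivAt_id y).const_mul (2:ℝ)) (fun y _ => B.dJ y)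
      (fun y _ => by have := (B.U0 y).le; linarith)
    beta_reduce at this
    linarith
  -- rho² ≥ rho0² + 2t²
  have hsq : ∀ x, 0 ≤ x → rho m q 0 ^ 2 + 2 * x ^ 2 ≤ rho m q x ^ 2 := by
    intro x hx
    have := cmp (f := fun y : ℝ => 2 * y ^ 2) (f' := fun y => 4 * y) (g := fun y => rho m q y ^ 2)
      (g' := fun y => 2 * J m q v y) hx
      (fun y _ => by
        refine ((hasDerivAt_pow 2 y).const_mul (2:ℝ)).congr_deriv ?_
        norm_num; ring) (fun y _ => B.dsq y)
      (fun y hy => by have := hJ y hy.1; linarith)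
    beta_reduce at this
    nlinarith
  have hrpos := B.rpos
  have hr1 : ∀ x, 0 ≤ x → 1 ≤ rho m q x := by
    intro x hx
    have h1 := hsq x hx
    have h2 := hrpos x
    by_contra hcon
    push Not at hcon
    nlinarith [sq_nonneg x]
  have hA : rho m q 0 + t ≤ 2 * rho m q t := by
    have h1 := hsq t ht
    have h2 := hrpos t
    have h3 := hrpos 0
    by_contra hcon
    push Not at hcon
    have : (2 * rho m q t) ^ 2 < (rho m q 0 + t) ^ 2 := by
      apply pow_lt_pow_left₀ hcon (by positivity) (by norm_num)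
    nlinarith [sq_nonneg (rho m q 0 - t)]
  have hB2 : rho m q t ≤ (1 + s2) * (rho m q 0 + t) := by
    have := cmp (f := rho m q) (f' := fun y => J m q v y / rho m q y)
      (g := fun y : ℝ => s2 * y) (g' := fun _ => s2) ht
      (fun y _ => B.drho y) (fun y _ => by simpa using (hasDerivAt_id y).const_mul s2)
      (fun y hy => by
        beta_reduce
        have h1 := hSpd y
        have h2 := hr1 y hy.1
        have h3 : (J m q v y / rho m q y) ^ 2 ≤ 2 * V := by
          refine h1.trans ?_
          have : 1 / rho m q y ≤ 1 := by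
            rw [div_le_one (hrpos y)]; exact h2
          nlinarith
        exact Real.le_sqrt_of_sq_le h3)
    beta_reduce at this
    have h3 := hrpos 0
    nlinarith
  refine ⟨?_, ?_, ?_⟩
  · have := hrpos t
    nlinarith
  · have := hrpos 0
    nlinarith
  · -- g = J²/ρ - 2ρ is increasing
    have hg : ∀ y, HasDerivAt (fun x => J m q v x ^ 2 / rho m q x - 2 * rho m q x)
        ((J m q v y / rho m q y) * W m q v y) y := by
      intro y
      have h1 := ((B.dJ y).pow 2).div (B.drho y) (hrpos y).ne'
      have h2 := h1.sub ((B.drho y).const_mul 2)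
      refine h2.congr_deriv ?_
      rw [B.WU y]
      have := (hrpos y).ne'
      simp only [Pi.pow_apply]
      field_simp
      ring
    have h0 := cmp (f := fun _ : ℝ => (0:ℝ)) (f' := fun _ => 0)
      (g := fun x => J m q v x ^ 2 / rho m q x - 2 * rho m q x)
      (g' := fun y => (J m q v y / rho m q y) * W m q v y) ht
      (fun y _ => hasDerivAt_const y _) (fun y _ => hg y)
      (fun y hy => by
        beta_reduce
        have h1 : 0 ≤ J m q v y := by have := hJ y hy.1; have := hy.1; linarith
        have h2 := hrpos y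
        have h3 := B.W0 y
        positivity)
    beta_reduce at h0
    have h00 : 0 ≤ J m q v 0 ^ 2 / rho m q 0 := by
      have := hrpos 0
      positivity
    have hW := B.WU t
    have hrt := hrpos t
    have h4 : W m q v t = 2 * U m q t - (J m q v t ^ 2 / rho m q t - 2 * rho m q t) / rho m q t := by
      rw [hW]
      field_simp
      ring
    rw [h4]
    have h5 : -(2 * rho m q 0) ≤ J m q v t ^ 2 / rho m q t - 2 * rho m q t := by linarith
    have h6 : -(2 * rho m q 0) / rho m q t ≤
        (J m q v t ^ 2 / rho m q t - 2 * rho m q t) / rho m q t :=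
      div_le_div_of_nonneg_right h5 hrt.le
    have h7 : -(2 * rho m q 0) / rho m q t = - (2 * rho m q 0 / rho m q t) := by ring
    linarith

end Pool.Agent.J4H67.TB
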