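import Pool.Agent.J4H12.TB.Bas1
import Pool.Agent.J4H67.TB.Fr

/-!
# Project TB (MP_877ce7_an): (CSF), the cost of a label change in the far region
-/

set_option autoImplicit false

namespace Pool.Agent.J4H67.TB

open Pool.Agent.J4H12.TB Filter Topology Set

/-- first exit to the right -/
lemma exit_right {f : ℝ → ℝ} (hf : Continuous f) {x t l : ℝ} (hx : l ≤ f x) :
    (∀ τ ∈ Icc x t, l ≤ f τ) ∨ ∃ y ∈ Icc x t, f y = l ∧ ∀ τ ∈ Icc x y, l ≤ f τ := by
  by_cases h : ∀ τ ∈ Icc x t, l ≤ f τ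
  · exact Or.inl h
  right
  push Not at h
  obtain ⟨τ0, hτ0, hlt⟩ := h
  have hK : IsCompact (Icc x τ0 ∩ f ⁻¹' Iic l) :=
    isCompact_Icc.inter_right (isClosed_Iic.preimage hf)
  have hne : (Icc x τ0 ∩ f ⁻¹' Iic l).Nonempty := ⟨τ0, ⟨hτ0.1, le_rfl⟩, hlt.le⟩
  have hy := hK.sInf_mem hne
  set y := sInf (Icc x τ0 ∩ f ⁻¹' Iic l) with hyd
  have hbelow : ∀ τ ∈ Ico x y, l ≤ f τ := by
    intro τ hτ
    by_contra hcon
    push Not at hcon
    have : y ≤ τ := csInf_le hK.bddBelow ⟨⟨hτ.1, (hτ.2.le.trans hy.1.2)⟩, hcon.le⟩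
    exact absurd hτ.2 (not_lt.2 this)
  have hall : ∀ τ ∈ Icc x y, l ≤ f τ := by
    rcases eq_or_lt_of_le hy.1.1 with h1 | h1
    · intro τ hτ
      have : τ = x := le_antisymm (h1 ▸ hτ.2) hτ.1
      rw [this]; exact hx
    · have h2 : Icc x y ⊆ f ⁻¹' Ici l := by
        rw [← closure_Ico h1.ne]
        exact closure_minimal hbelow (isClosed_Ici.preimage hf)
      exact h2
  exact ⟨y, ⟨hy.1.1, hy.1.2.trans hτ0.2⟩, le_antisymm hy.2 (hall y ⟨hy.1.1, le_rfl⟩), hall⟩

/-- first exit to the left -/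
lemma exit_left {f : ℝ → ℝ} (hf : Continuous f) {x t l : ℝ} (hx : l ≤ f t) :
    (∀ τ ∈ Icc x t, l ≤ f τ) ∨ ∃ y ∈ Icc x t, f y = l ∧ ∀ τ ∈ Icc y t, l ≤ f τ := by
  have h := exit_right (f := fun τ => f (-τ)) (hf.comp continuous_neg) (x := -t) (t := -x) (l := l)
    (by simpa using hx)
  rcases h with h | ⟨y, hy, h1, h2⟩
  · left
    intro τ hτ
    have := h (-τ) ⟨by linarith [hτ.2], by linarith [hτ.1]⟩
    simpa using this
  · right
    refine ⟨-y, ⟨by linarith [hy.2], by linarith [hy.1]⟩, h1, ?_⟩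
    intro τ hτ
    have := h2 (-τ) ⟨by linarith [hτ.2], by linarith [hτ.1]⟩
    simpa using this

/-- upward crossing -/
lemma crossing_up {f : ℝ → ℝ} (hf : Continuous f) {α β x z : ℝ} (hαβ : α ≤ β) (hxz : x ≤ z)
    (hx : f x ≤ α) (hz : β ≤ f z) :
    ∃ u w, x ≤ u ∧ u ≤ w ∧ w ≤ z ∧ f u = α ∧ f w = β ∧ ∀ τ ∈ Icc u w, α ≤ f τ ∧ f τ ≤ β := by
  obtain ⟨w, hw, hfw, hle⟩ : ∃ w ∈ Icc x z, f w = β ∧ ∀ τ ∈ Icc x w, f τ ≤ β := by
    rcases exit_right (f := fun τ => - f τ) hf.neg (x := x) (t := z) (l := -β)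
      (by simp only [neg_le_neg_iff]; linarith) with h | ⟨w, hw, h1, h2⟩
    · refine ⟨z, ⟨hxz, le_rfl⟩, le_antisymm ?_ hz, fun τ hτ => ?_⟩
      · have := h z ⟨hxz, le_rfl⟩; simpa using this
      · have := h τ hτ; simpa using this
    · refine ⟨w, hw, by simpa using h1, fun τ hτ => ?_⟩
      have := h2 τ hτ; simpa using this
  rcases exit_left hf (x := x) (t := w) (l := α) (by rw [hfw]; exact hαβ) with h | ⟨u, hu, h1, h2⟩
  · exact ⟨x, w, le_rfl, hw.1, hw.2, le_antisymm hx (h x ⟨le_rfl, hw.1⟩), hfw,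
      fun τ hτ => ⟨h τ hτ, hle τ hτ⟩⟩
  · exact ⟨u, w, hu.1, hu.2, hw.2, h1, hfw,
      fun τ hτ => ⟨h2 τ hτ, hle τ ⟨hu.1.trans hτ.1, hτ.2⟩⟩⟩

/-- downward crossing -/
lemma crossing_down {f : ℝ → ℝ} (hf : Continuous f) {α β x z : ℝ} (hαβ : α ≤ β) (hxz : x ≤ z)
    (hx : β ≤ f x) (hz : f z ≤ α) :
    ∃ u w, x ≤ u ∧ u ≤ w ∧ w ≤ z ∧ f u = β ∧ f w = α ∧ ∀ τ ∈ Icc u w, α ≤ f τ ∧ f τ ≤ β := by
  obtain ⟨u, w, h1, h2, h3, h4, h5, h6⟩ := crossing_up (f := fun τ => f (-τ))
    (hf.comp continuous_neg) (x := -z) (z := -x) hαβ (by linarith) (by simpa using hz)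
    (by simpa using hx)
  refine ⟨-w, -u, by linarith, by linarith, by linarith, h5, h4, ?_⟩
  intro τ hτ
  have := h6 (-τ) ⟨by linarith [hτ.2], by linarith [hτ.1]⟩
  simpa using this

lemma dZf {r t : ℝ} (hr : 0 < r) (ht : 0 ≤ t) :
    HasDerivAt (Zf r) (√(r / (r + t)) / (2 * (r + t))) t := by
  have hrt : 0 < r + t := by linarith
  have h1 : HasDerivAt (fun y : ℝ => r / (r + y)) (-r / (r + t) ^ 2) t := by
    have := (hasDerivAt_const t r).div ((hasDerivAt_id t).const_add r) hrt.ne'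
    refine this.congr_deriv ?_
    simp
  have hpos : 0 < r / (r + t) := by positivity
  have h2 := (h1.sqrt hpos.ne').neg
  refine h2.congr_deriv ?_
  have hs : 0 < √(r / (r + t)) := Real.sqrt_pos.2 hpos
  have hs2 : √(r / (r + t)) ^ 2 = r / (r + t) := Real.sq_sqrt hpos.le
  have e : -(-r / (r + t) ^ 2 / (2 * √(r / (r + t)))) =
      (r / (r + t)) / ((r + t) * (2 * √(r / (r + t)))) := by
    field_simp
  rw [e]
  set s := √(r / (r + t)) with hsd
  rw [← hs2]
  field_simp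

lemma Zf_mono {r s t : ℝ} (hr : 0 < r) (hs : 0 ≤ s) (hst : s ≤ t) : Zf r s ≤ Zf r t := by
  have := cmp (f := fun _ : ℝ => (0:ℝ)) (f' := fun _ => 0) (g := Zf r)
    (g' := fun y => √(r / (r + y)) / (2 * (r + y))) hst
    (fun y _ => hasDerivAt_const y _) (fun y hy => dZf hr (hs.trans hy.1))
    (fun y hy => by
      have : 0 < r + y := by linarith [hs.trans hy.1]
      positivity)
  beta_reduce at this
  linarith

lemma chi_cyc (q : Fin 3 → ℝ → ℂ) (a : Fin 3) (t : ℝ) :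
    chi q t = cr (q (a + 1) t - q a t) (q (a + 2) t - q a t) := by
  fin_cases a
  · rfl
  · show chi q t = cr (q 2 t - q 1 t) (q 0 t - q 1 t)
    unfold chi cr
    simp only [Complex.sub_re, Complex.sub_im]
    ring
  · show chi q t = cr (q 0 t - q 2 t) (q 1 t - q 2 t)
    unfold chi cr
    simp only [Complex.sub_re, Complex.sub_im]
    ring

/-- at a right angle the area is the product of two sides -/
lemma chi_right {q : Fin 3 → ℝ → ℂ} {a : Fin 3} {t : ℝ} (h : psi q a t = 0) :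
    |chi q t| = D q (a + 2) t * D q (a + 1) t := by
  rw [chi_cyc q a t]
  have h2 : dt (q (a + 1) t - q a t) (q (a + 2) t - q a t) = 0 := h
  have e1 : D q (a + 2) t = ‖q (a + 1) t - q a t‖ := by
    fin_cases a <;> rfl
  have e2 : D q (a + 1) t = ‖q (a + 2) t - q a t‖ := by
    rw [norm_sub_rev]
    fin_cases a <;> rfl
  rw [e1, e2]
  rw [← Real.sqrt_sq (by positivity : 0 ≤ ‖q (a + 1) t - q a t‖ * ‖q (a + 2) t - q a t‖),
    ← Real.sqrt_sq_eq_abs]
  congr 1
  rw [mul_pow, nsq, nsq]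
  unfold dt at h2
  unfold cr
  linear_combination (-1) * ((q (a + 1) t - q a t).re * (q (a + 2) t - q a t).re +
    (q (a + 1) t - q a t).im * (q (a + 2) t - q a t).im) * h2

/-- speed of the shape where no pair is close, far region -/
lemma speed {m : Fin 3 → ℝ} {q v : Fin 3 → ℝ → ℂ} {δ C2 t : ℝ} (hS : Sol m 1 q v)
    (hδ : 0 < δ) (hC2 : 1 ≤ C2) (hr0 : 1 ≤ rho m q 0) (ht : 0 ≤ t)
    (h1 : rho m q 0 + t ≤ C2 * rho m q t)
    (h2 : W m q v t ≤ 2 * U m q t + 2 * rho m q 0 / rho m q t)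
    (hD : ∀ p, δ * rho m q t ≤ D q p t) :
    √(W m q v t) / rho m q t ≤
      (2 * √(2 * ((m 1 * m 2 + m 2 * m 0 + m 0 * m 1) / δ) + 2) * √C2 * C2) *
        (√(rho m q 0 / (rho m q 0 + t)) / (2 * (rho m q 0 + t))) := by
  have hρ := hS.rpos t
  have hm0 := hS.mpos 0
  have hm1 := hS.mpos 1
  have hm2 := hS.mpos 2
  set ρ := rho m q t with hρd
  set r := rho m q 0 with hr
  set A := (m 1 * m 2 + m 2 * m 0 + m 0 * m 1) / δ with hA
  have hA0 : 0 < A := by positivity
  have hr00 : 0 < r := by linarith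
  have hrt : 0 < r + t := by linarith
  have hU : U m q t ≤ A / ρ := by
    unfold U
    rw [Fin.sum_univ_three]
    simp only [f3_01, f3_11, f3_21, f3_02, f3_12, f3_22]
    have e : A / ρ =
        m 1 * m 2 / (δ * ρ) + m 2 * m 0 / (δ * ρ) + m 0 * m 1 / (δ * ρ) := by
      rw [hA]; field_simp
    rw [e]
    have g : ∀ (M : ℝ) (p : Fin 3), 0 ≤ M → M / D q p t ≤ M / (δ * ρ) := fun M p hM =>
      div_le_div_of_nonneg_left hM (by positivity) (hD p)
    have := g (m 1 * m 2) 0 (by positivity)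
    have := g (m 2 * m 0) 1 (by positivity)
    have := g (m 0 * m 1) 2 (by positivity)
    linarith
  have hρ1 : 1 / ρ ≤ C2 / (r + t) := by
    rw [div_le_div_iff₀ hρ hrt]; linarith
  have hWle : W m q v t ≤ (2 * A + 2) * (C2 * (r / (r + t))) := by
    calc W m q v t ≤ 2 * (A / ρ) + 2 * r / ρ := by linarith
      _ ≤ (2 * A + 2) * (r * (1 / ρ)) := by
          have e : (2 * A + 2) * (r * (1 / ρ)) = 2 * (A / ρ) * r + 2 * r / ρ := by
            field_simp
          rw [e]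
          have : 0 ≤ 2 * (A / ρ) := by positivity
          nlinarith
      _ ≤ (2 * A + 2) * (r * (C2 / (r + t))) := by
          apply mul_le_mul_of_nonneg_left _ (by positivity)
          exact mul_le_mul_of_nonneg_left hρ1 hr00.le
      _ = (2 * A + 2) * (C2 * (r / (r + t))) := by ring
  have hs : √(W m q v t) ≤ √(2 * A + 2) * (√C2 * √(r / (r + t))) := by
    rw [← Real.sqrt_mul (by linarith), ← Real.sqrt_mul (by positivity)]
    exact Real.sqrt_le_sqrt hWle
  calc √(W m q v t) / ρ = √(W m q v t) * (1 / ρ) := by ring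
    _ ≤ (√(2 * A + 2) * (√C2 * √(r / (r + t)))) * (C2 / (r + t)) :=
        mul_le_mul hs hρ1 (by positivity) (by positivity)
    _ = _ := by
        field_simp

/-- (CSF) -/
theorem t_CSF (hB : S_BAS) (hR : S_RA) (hF : S_FR) : S_CSF := by
  intro m hm V hV
  obtain ⟨C1, hC1, hBas⟩ := hB m hm
  obtain ⟨C2, hC2, hFR⟩ := hF m hm V hV
  have hC10 : 0 < C1 := by linarith
  refine ⟨1 / (4 * C1), by positivity, ?_⟩
  intro δ hδ hδle
  have h4 : 4 * δ ≤ 1 / C1 := by
    rw [le_div_iff₀ hC10]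
    rw [le_div_iff₀ (by positivity)] at hδle
    linarith
  have h41 : 4 * δ ≤ 1 := h4.trans (by rw [div_le_one hC10]; exact hC1)
  have hm0 := hm 0
  have hm1 := hm 1
  have hm2 := hm 2
  set K1 := 2 * √(2 * ((m 1 * m 2 + m 2 * m 0 + m 0 * m 1) / δ) + 2) * √C2 * C2 with hK1
  have hK10 : 0 < K1 := by
    have a1 : 0 < √(2 * ((m 1 * m 2 + m 2 * m 0 + m 0 * m 1) / δ) + 2) :=
      Real.sqrt_pos.2 (by positivity)
    have a2 : 0 < √C2 := Real.sqrt_pos.2 (by linarith)
    positivity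
  set K := C1 * K1 with hK
  have hK0 : 0 < K := by positivity
  refine ⟨4 * δ ^ 2 / K, by positivity, ?_⟩
  intro q v hS hSpd hJ0 hr0 s t hs hst a b hab ha hb
  have B := hBas 1 q v hS
  obtain ⟨R1, R2⟩ := hR m 1 q v hS
  have hFR' := hFR q v hS hSpd hJ0 hr0
  set r := rho m q 0 with hr
  have hr00 : 0 < r := by linarith
  -- movement lemma
  have hspeed : ∀ y, 0 ≤ y → (∀ p, δ * rho m q y ≤ D q p y) → ∀ d : ℝ,
      |d| ≤ C1 * (√(W m q v y) / rho m q y) →
      |d| ≤ K * (√(r / (r + y)) / (2 * (r + y))) := by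
    intro y hy hp d hd
    refine hd.trans ?_
    rw [hK, mul_assoc]
    apply mul_le_mul_of_nonneg_left _ hC10.le
    obtain ⟨g1, _, g3⟩ := hFR' y hy
    exact speed hS hδ hC2 hr0 hy g1 g3 hp
  have hKZ : ∀ y, 0 ≤ y → HasDerivAt (fun y => K * Zf r y)
      (K * (√(r / (r + y)) / (2 * (r + y)))) y := fun y hy => (dZf hr00 hy).const_mul K
  have moveD : ∀ p x y, 0 ≤ x → x ≤ y → (∀ τ ∈ Icc x y, ∀ p, δ * rho m q τ ≤ D q p τ) →
      |D q p y / rho m q y - D q p x / rho m q x| ≤ K * (Zf r y - Zf r x) := by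
    intro p x y hx hxy hall
    choose d hd1 hd2 using fun τ => B.dD p τ
    have := cmp_abs (f := fun t => D q p t / rho m q t) (f' := d) (g := fun y => K * Zf r y)
      (g' := fun y => K * (√(r / (r + y)) / (2 * (r + y)))) hxy (fun τ _ => hd1 τ)
      (fun τ hτ => hKZ τ (hx.trans hτ.1))
      (fun τ hτ => hspeed τ (hx.trans hτ.1) (hall τ hτ) (d τ) (hd2 τ))
    beta_reduce at this
    linarith
  have moveC : ∀ x y, 0 ≤ x → x ≤ y → (∀ τ ∈ Icc x y, ∀ p, δ * rho m q τ ≤ D q p τ) →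
      |chi q y / rho m q y ^ 2 - chi q x / rho m q x ^ 2| ≤ K * (Zf r y - Zf r x) := by
    intro x y hx hxy hall
    choose d hd1 hd2 using fun τ => B.dchi τ
    have := cmp_abs (f := fun t => chi q t / rho m q t ^ 2) (f' := d) (g := fun y => K * Zf r y)
      (g' := fun y => K * (√(r / (r + y)) / (2 * (r + y)))) hxy (fun τ _ => hd1 τ)
      (fun τ hτ => hKZ τ (hx.trans hτ.1))
      (fun τ hτ => hspeed τ (hx.trans hτ.1) (hall τ hτ) (d τ) (hd2 τ))
    beta_reduce at this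
    linarith
  have hcont : ∀ p, Continuous fun t => D q p t / rho m q t := by
    intro p
    rw [continuous_iff_continuousAt]
    intro τ
    obtain ⟨d, hd, _⟩ := B.dD p τ
    exact hd.continuousAt
  have final : ∀ x y, s ≤ x → x ≤ y → y ≤ t → 4 * δ ^ 2 ≤ K * (Zf r y - Zf r x) →
      4 * δ ^ 2 / K ≤ Zf r t - Zf r s := by
    intro x y hx hxy hyt h
    rw [div_le_iff₀ hK0]
    have m1 := Zf_mono hr00 hs hx
    have m2 := Zf_mono hr00 (hs.trans (hx.trans hxy)) hyt
    nlinarith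
  have hδ2 : 4 * δ ^ 2 ≤ δ := by nlinarith
  obtain ⟨x, hx, hpsi⟩ := R2 s t a b hst hab ha hb
  have hx0 : 0 ≤ x := hs.trans hx.1
  by_cases hcase : ∀ p, 2 * δ ≤ D q p x / rho m q x
  · -- no pair close at the right angle
    right
    have hf : Continuous fun τ => min (min (D q 0 τ / rho m q τ) (D q 1 τ / rho m q τ))
        (D q 2 τ / rho m q τ) := ((hcont 0).min (hcont 1)).min (hcont 2)
    have hsides : ∀ τ, δ ≤ min (min (D q 0 τ / rho m q τ) (D q 1 τ / rho m q τ))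
        (D q 2 τ / rho m q τ) → ∀ p, δ * rho m q τ ≤ D q p τ := by
      intro τ hτ p
      have h1 := (le_min_iff.1 hτ).2
      have h2 := (le_min_iff.1 (le_min_iff.1 hτ).1).1
      have h3 := (le_min_iff.1 (le_min_iff.1 hτ).1).2
      rw [← le_div_iff₀ (B.rpos τ)]
      fin_cases p
      · exact h2
      · exact h3
      · exact h1
    rcases exit_right hf (x := x) (t := t) (l := δ) (by
      refine le_min (le_min ?_ ?_) ?_ <;> linarith [hcase 0, hcase 1, hcase 2]) with h | h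
    · -- up to time t
      have h1 := moveC x t hx0 hx.2 (fun τ hτ => hsides τ (h τ hτ))
      rw [R1 b t hb, zero_div, zero_sub, abs_neg, abs_div, chi_right hpsi,
        abs_of_pos (pow_pos (B.rpos x) 2)] at h1
      refine final x t hx.1 hx.2 le_rfl (le_trans ?_ h1)
      have h2 := hcase (a + 2)
      have h3 := hcase (a + 1)
      have e : D q (a + 2) x * D q (a + 1) x / rho m q x ^ 2 =
          (D q (a + 2) x / rho m q x) * (D q (a + 1) x / rho m q x) := by
        have := (B.rpos x).ne'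
        field_simp
      rw [e]
      nlinarith
    · obtain ⟨y, hy, hfy, hall⟩ := h
      have hp : ∃ p, D q p y / rho m q y = δ := by
        rcases min_choice (min (D q 0 y / rho m q y) (D q 1 y / rho m q y))
          (D q 2 y / rho m q y) with h1 | h1
        · rcases min_choice (D q 0 y / rho m q y) (D q 1 y / rho m q y) with h2 | h2
          · exact ⟨0, by rw [← h2, ← h1]; exact hfy⟩
          · exact ⟨1, by rw [← h2, ← h1]; exact hfy⟩
        · exact ⟨2, by rw [← h1]; exact hfy⟩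
      obtain ⟨p, hp⟩ := hp
      have h1 := moveD p x y hx0 hy.1 (fun τ hτ => hsides τ (hall τ hτ))
      rw [hp] at h1
      refine final x y hx.1 hy.1 hy.2 (le_trans ?_ h1)
      have h2 := hcase p
      have h3 : δ ≤ D q p x / rho m q x - δ := by linarith
      calc 4 * δ ^ 2 ≤ δ := hδ2
        _ ≤ D q p x / rho m q x - δ := h3
        _ ≤ |δ - D q p x / rho m q x| := by
            rw [abs_sub_comm]; exact le_abs_self _
  · push Not at hcase
    obtain ⟨p, hp⟩ := hcase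
    by_cases hcl : Close m q δ p s t
    · exact Or.inl ⟨p, hcl⟩
    right
    unfold Close at hcl
    push Not at hcl
    obtain ⟨z, hz, hz2⟩ := hcl
    have hz3 : 4 * δ ≤ D q p z / rho m q z := by
      rw [le_div_iff₀ (B.rpos z)]; exact hz2.le
    -- on a crossing interval all sides are large
    have hbig : ∀ τ, 2 * δ ≤ D q p τ / rho m q τ → D q p τ / rho m q τ ≤ 4 * δ →
        ∀ p', δ * rho m q τ ≤ D q p' τ := by
      intro τ h1 h2 p'
      have hρ := B.rpos τ
      rw [le_div_iff₀ hρ] at h1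
      rw [div_le_iff₀ hρ] at h2
      by_contra hcon
      push Not at hcon
      have e1 : D q p τ ≤ rho m q τ / C1 := by
        calc D q p τ ≤ 4 * δ * rho m q τ := h2
          _ ≤ (1 / C1) * rho m q τ := mul_le_mul_of_nonneg_right h4 hρ.le
          _ = rho m q τ / C1 := by ring
      have e2 : D q p' τ ≤ rho m q τ / C1 := by
        calc D q p' τ ≤ δ * rho m q τ := hcon.le
          _ ≤ (1 / C1) * rho m q τ := mul_le_mul_of_nonneg_right (by linarith) hρ.le
          _ = rho m q τ / C1 := by ring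
      have := B.one τ p p' e1 e2
      rw [← this] at hcon
      nlinarith
    rcases le_total x z with hxz | hxz
    · obtain ⟨u, w, g1, g2, g3, g4, g5, g6⟩ := crossing_up (hcont p) (α := 2 * δ) (β := 4 * δ)
        (by linarith) hxz hp.le hz3
      have h1 := moveD p u w (hx0.trans g1) g2
        (fun τ hτ => hbig τ (g6 τ hτ).1 (g6 τ hτ).2)
      rw [g5, g4] at h1
      refine final u w (hx.1.trans g1) g2 (g3.trans hz.2) (le_trans ?_ h1)
      have : 4 * δ - 2 * δ ≤ |4 * δ - 2 * δ| := le_abs_self _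
      linarith
    · obtain ⟨u, w, g1, g2, g3, g4, g5, g6⟩ := crossing_down (hcont p) (α := 2 * δ) (β := 4 * δ)
        (by linarith) hxz hz3 hp.le
      have h1 := moveD p u w ((hs.trans hz.1).trans g1) g2
        (fun τ hτ => hbig τ (g6 τ hτ).1 (g6 τ hτ).2)
      rw [g5, g4] at h1
      refine final u w (hz.1.trans g1) g2 (g3.trans hx.2) (le_trans ?_ h1)
      have : -(2 * δ - 4 * δ) ≤ |2 * δ - 4 * δ| := neg_le_abs _
      linarith

end Pool.Agent.J4H67.TB
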