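import Pool.Agent.J4H12.TB.Bas1

/-!
# Project TB (MP_877ce7_an): (PSI), the force at a right angle
-/

set_option autoImplicit false

namespace Pool.Agent.J4H67.TB

open Pool.Agent.J4H12.TB Filter Topology Set

/-- one of the two main terms -/
lemma term_le {μ b w ρ δ C ψa : ℝ} (hμ : 0 < μ) (hρ : 0 < ρ) (hδ : 0 < δ) (hC : 0 < C)
    (hb : 0 < b) (hw : 0 < w) (hbC : b ≤ C * ρ) (h : b ^ 2 + δ ^ 2 * ρ ^ 2 / 2 ≤ w ^ 2)
    (hψ : ψa = δ ^ 2 / (2 * C ^ 2)) :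
    μ * b ^ 2 * (1 / w ^ 3 - 1 / b ^ 3) ≤ - (μ * (ψa / ((1 + ψa) * C)) / ρ) := by
  have hη : 0 < ψa := by rw [hψ]; positivity
  have h1 : ψa * b ^ 2 ≤ δ ^ 2 * ρ ^ 2 / 2 := by
    have : b ^ 2 ≤ C ^ 2 * ρ ^ 2 := by
      rw [← mul_pow]; exact pow_le_pow_left₀ hb.le hbC 2
    rw [hψ]
    rw [div_mul_eq_mul_div, div_le_div_iff₀ (by positivity) (by norm_num)]
    nlinarith [mul_le_mul_of_nonneg_left this (sq_nonneg δ)]
  have h2 : (1 + ψa) * b ^ 2 ≤ w ^ 2 := by linarith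
  have h3 : b ≤ w := by
    apply le_of_sq_le_sq _ hw.le
    nlinarith [sq_nonneg b]
  have h4 : (1 + ψa) * b ^ 3 ≤ w ^ 3 := by
    calc (1 + ψa) * b ^ 3 = ((1 + ψa) * b ^ 2) * b := by ring
      _ ≤ w ^ 2 * w := mul_le_mul h2 h3 hb.le (sq_nonneg w)
      _ = w ^ 3 := by ring
  have h5 : 1 / w ^ 3 ≤ 1 / ((1 + ψa) * b ^ 3) :=
    one_div_le_one_div_of_le (by positivity) h4
  have h6 : μ * b ^ 2 * (1 / w ^ 3 - 1 / b ^ 3) ≤
      μ * b ^ 2 * (1 / ((1 + ψa) * b ^ 3) - 1 / b ^ 3) := by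
    apply mul_le_mul_of_nonneg_left _ (by positivity)
    linarith
  refine h6.trans ?_
  have h7 : μ * b ^ 2 * (1 / ((1 + ψa) * b ^ 3) - 1 / b ^ 3) = - (μ * ψa / ((1 + ψa) * b)) := by
    field_simp
    ring
  rw [h7, neg_le_neg_iff]
  rw [mul_div_assoc', div_div, mul_assoc (1 + ψa)]
  apply div_le_div_of_nonneg_left (by positivity) (by positivity)
  apply mul_le_mul_of_nonneg_left hbC (by positivity)

lemma term_nonpos {μ b w : ℝ} (hμ : 0 < μ) (hb : 0 < b) (hbw : b ^ 2 ≤ w ^ 2) (hw : 0 < w) :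
    μ * b ^ 2 * (1 / w ^ 3 - 1 / b ^ 3) ≤ 0 := by
  have h3 : b ≤ w := le_of_sq_le_sq hbw hw.le
  have h5 : 1 / w ^ 3 ≤ 1 / b ^ 3 :=
    one_div_le_one_div_of_le (by positivity) (pow_le_pow_left₀ hb.le h3 3)
  apply mul_nonpos_of_nonneg_of_nonpos (by positivity)
  linarith

/-- the real estimate -/
lemma real_est (m0 m1 m2 δ C V Uc : ℝ) (h0 : 0 < m0) (h1 : 0 < m1) (h2 : 0 < m2) (hδ : 0 < δ)
    (hC : 0 < C) (hV : 0 < V) (hUc : 0 < Uc) :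
    ∃ κ c : ℝ, 0 < κ ∧ 0 < c ∧ ∀ ρ a b w ψ E U J : ℝ, 0 < ρ → 0 < E → E * ρ ≤ 1 →
      δ * ρ ≤ a → δ * ρ ≤ b → δ * ρ ≤ w → b ≤ C * ρ → w ^ 2 = a ^ 2 + b ^ 2 - 2 * ψ →
      |ψ| ≤ κ * ρ ^ 2 → 0 ≤ U → U ≤ Uc / ρ → (J / ρ) ^ 2 ≤ V * (E + 1 / ρ) →
      -ψ * ((m0 + m1) / a ^ 3 + (m0 + m2) / b ^ 3 + (m1 + m2) / w ^ 3)
        + m2 * b ^ 2 * (1 / w ^ 3 - 1 / b ^ 3) + m1 * a ^ 2 * (1 / w ^ 3 - 1 / a ^ 3)
        - 2 * ψ * ((2 * E + U) / ρ ^ 2 - (J / ρ ^ 2) ^ 2) ≤ - c / ρ := by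
  set η := δ ^ 2 / (2 * C ^ 2) with hη
  have hη0 : 0 < η := by positivity
  set c0 := m2 * (η / ((1 + η) * C)) with hc0
  have hc00 : 0 < c0 := by positivity
  set K0 := 2 * (m0 + m1 + m2) / δ ^ 3 + 2 * (2 + Uc + 2 * V) with hK0
  have hK00 : 0 < K0 := by positivity
  refine ⟨min (δ ^ 2 / 4) (c0 / (2 * K0)), c0 / 2, lt_min (by positivity) (by positivity),
    by positivity, ?_⟩
  intro ρ a b w ψ E U J hρ hE hEρ ha hb hw hbC hww hψ hU0 hU hJ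
  set κ := min (δ ^ 2 / 4) (c0 / (2 * K0)) with hκ
  have hκ1 : κ ≤ δ ^ 2 / 4 := min_le_left _ _
  have hκ2 : κ * K0 ≤ c0 / 2 := by
    have : κ ≤ c0 / (2 * K0) := min_le_right _ _
    rw [le_div_iff₀ (by positivity)] at this
    linarith
  have hδρ : 0 < δ * ρ := by positivity
  have ha0 : 0 < a := hδρ.trans_le ha
  have hb0 : 0 < b := hδρ.trans_le hb
  have hw0 : 0 < w := hδρ.trans_le hw
  have hψ2 : 2 * ψ ≤ δ ^ 2 * ρ ^ 2 / 2 := by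
    have := (le_abs_self ψ).trans hψ
    nlinarith [sq_nonneg ρ]
  have ha2 : δ ^ 2 * ρ ^ 2 ≤ a ^ 2 := by
    rw [← mul_pow]; exact pow_le_pow_left₀ hδρ.le ha 2
  have hb2 : δ ^ 2 * ρ ^ 2 ≤ b ^ 2 := by
    rw [← mul_pow]; exact pow_le_pow_left₀ hδρ.le hb 2
  have T2 := term_le (μ := m2) (b := b) (w := w) (ρ := ρ) (δ := δ) (C := C) (ψa := η) h2 hρ hδ hC
    hb0 hw0 hbC (by linarith) hη
  have T3 : m1 * a ^ 2 * (1 / w ^ 3 - 1 / a ^ 3) ≤ 0 :=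
    term_nonpos h1 ha0 (by
      have : 0 ≤ δ ^ 2 * ρ ^ 2 := by positivity
      linarith) hw0
  -- term 1
  have hcube : ∀ x, δ * ρ ≤ x → 1 / x ^ 3 ≤ 1 / (δ ^ 3 * ρ ^ 3) := by
    intro x hx
    apply one_div_le_one_div_of_le (by positivity)
    rw [← mul_pow]
    exact pow_le_pow_left₀ hδρ.le hx 3
  have hdiv : ∀ M x, 0 ≤ M → δ * ρ ≤ x → M / x ^ 3 ≤ M / (δ ^ 3 * ρ ^ 3) := by
    intro M x hM hx
    have := mul_le_mul_of_nonneg_left (hcube x hx) hM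
    rwa [mul_one_div, mul_one_div] at this
  have T1 : -ψ * ((m0 + m1) / a ^ 3 + (m0 + m2) / b ^ 3 + (m1 + m2) / w ^ 3)
      ≤ κ * (2 * (m0 + m1 + m2) / δ ^ 3) / ρ := by
    have hs0 : 0 ≤ (m0 + m1) / a ^ 3 + (m0 + m2) / b ^ 3 + (m1 + m2) / w ^ 3 := by positivity
    have hs1 : (m0 + m1) / a ^ 3 + (m0 + m2) / b ^ 3 + (m1 + m2) / w ^ 3 ≤
        2 * (m0 + m1 + m2) / (δ ^ 3 * ρ ^ 3) := by
      have e : 2 * (m0 + m1 + m2) / (δ ^ 3 * ρ ^ 3) = (m0 + m1) / (δ ^ 3 * ρ ^ 3)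
          + (m0 + m2) / (δ ^ 3 * ρ ^ 3) + (m1 + m2) / (δ ^ 3 * ρ ^ 3) := by
        field_simp; ring
      rw [e]
      have := hdiv (m0 + m1) a (by positivity) ha
      have := hdiv (m0 + m2) b (by positivity) hb
      have := hdiv (m1 + m2) w (by positivity) hw
      linarith
    calc -ψ * ((m0 + m1) / a ^ 3 + (m0 + m2) / b ^ 3 + (m1 + m2) / w ^ 3)
        ≤ |ψ| * ((m0 + m1) / a ^ 3 + (m0 + m2) / b ^ 3 + (m1 + m2) / w ^ 3) :=
          mul_le_mul_of_nonneg_right (neg_le_abs ψ) hs0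
      _ ≤ (κ * ρ ^ 2) * (2 * (m0 + m1 + m2) / (δ ^ 3 * ρ ^ 3)) :=
          mul_le_mul hψ hs1 hs0 (by positivity)
      _ = κ * (2 * (m0 + m1 + m2) / δ ^ 3) / ρ := by
          field_simp
  -- term 4
  have hEρ' : E ≤ 1 / ρ := by rw [le_div_iff₀ hρ]; exact hEρ
  have T4 : - 2 * ψ * ((2 * E + U) / ρ ^ 2 - (J / ρ ^ 2) ^ 2) ≤
      κ * (2 * (2 + Uc + 2 * V)) / ρ := by
    have hlam : (J / ρ ^ 2) ^ 2 ≤ 2 * V / ρ ^ 3 := by
      have e : (J / ρ ^ 2) ^ 2 = (J / ρ) ^ 2 / ρ ^ 2 := by field_simp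
      rw [e, div_le_div_iff₀ (by positivity) (by positivity)]
      have : V * (E + 1 / ρ) ≤ 2 * V / ρ := by
        have e2 : 2 * V / ρ = V * (1 / ρ + 1 / ρ) := by ring
        rw [e2]
        apply mul_le_mul_of_nonneg_left _ hV.le
        linarith
      have h3 := hJ.trans this
      calc (J / ρ) ^ 2 * ρ ^ 3 ≤ (2 * V / ρ) * ρ ^ 3 :=
            mul_le_mul_of_nonneg_right h3 (by positivity)
        _ = 2 * V * ρ ^ 2 := by field_simp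
    have hEU : (2 * E + U) / ρ ^ 2 ≤ (2 + Uc) / ρ ^ 3 := by
      rw [div_le_div_iff₀ (by positivity) (by positivity)]
      have : 2 * E + U ≤ (2 + Uc) / ρ := by
        have e2 : (2 + Uc) / ρ = 2 * (1 / ρ) + Uc / ρ := by ring
        rw [e2]; linarith
      calc (2 * E + U) * ρ ^ 3 ≤ ((2 + Uc) / ρ) * ρ ^ 3 :=
            mul_le_mul_of_nonneg_right this (by positivity)
        _ = (2 + Uc) * ρ ^ 2 := by field_simp
    have habs : |(2 * E + U) / ρ ^ 2 - (J / ρ ^ 2) ^ 2| ≤ (2 + Uc + 2 * V) / ρ ^ 3 := by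
      have p1 : 0 ≤ (2 * E + U) / ρ ^ 2 := by positivity
      have p2 : 0 ≤ (J / ρ ^ 2) ^ 2 := by positivity
      have p3 : 0 ≤ (2 + Uc) / ρ ^ 3 := by positivity
      have p4 : 0 ≤ 2 * V / ρ ^ 3 := by positivity
      have e : (2 + Uc + 2 * V) / ρ ^ 3 = (2 + Uc) / ρ ^ 3 + 2 * V / ρ ^ 3 := by ring
      rw [e, abs_le]
      constructor <;> linarith
    calc - 2 * ψ * ((2 * E + U) / ρ ^ 2 - (J / ρ ^ 2) ^ 2)
        ≤ |- 2 * ψ * ((2 * E + U) / ρ ^ 2 - (J / ρ ^ 2) ^ 2)| := le_abs_self _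
      _ = 2 * |ψ| * |(2 * E + U) / ρ ^ 2 - (J / ρ ^ 2) ^ 2| := by
          rw [abs_mul, abs_mul]; norm_num
      _ ≤ 2 * (κ * ρ ^ 2) * ((2 + Uc + 2 * V) / ρ ^ 3) :=
          mul_le_mul (by linarith) habs (abs_nonneg _) (by positivity)
      _ = κ * (2 * (2 + Uc + 2 * V)) / ρ := by
          field_simp
  have hsum : κ * (2 * (m0 + m1 + m2) / δ ^ 3) / ρ + κ * (2 * (2 + Uc + 2 * V)) / ρ ≤
      (c0 / 2) / ρ := by
    rw [← add_div]
    apply div_le_div_of_nonneg_right _ hρ.le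
    have : κ * (2 * (m0 + m1 + m2) / δ ^ 3) + κ * (2 * (2 + Uc + 2 * V)) = κ * K0 := by
      rw [hK0]; ring
    rw [this]; exact hκ2
  have e3 : -(c0 / 2) / ρ = c0 / 2 / ρ - c0 / ρ := by ring
  rw [e3]
  have e4 : -(m2 * (η / ((1 + η) * C)) / ρ) = - (c0 / ρ) := by rw [hc0]
  rw [e4] at T2
  linarith

/-- Cauchy-Schwarz for `dt` -/
lemma abs_dt_le (z w : ℂ) : |dt z w| ≤ ‖z‖ * ‖w‖ := by
  apply abs_le_of_sq_le_sq _ (by positivity)
  rw [mul_pow, nsq, nsq]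
  unfold dt
  nlinarith [sq_nonneg (z.re * w.im - z.im * w.re)]

/-- the force term -/
lemma force_psi (m : Fin 3 → ℝ) (q : Fin 3 → ℝ → ℂ) (t : ℝ) :
    dt (acc m q 1 t - acc m q 0 t) (q 2 t - q 0 t) + dt (q 1 t - q 0 t) (acc m q 2 t - acc m q 0 t)
      = -dt (q 1 t - q 0 t) (q 2 t - q 0 t) * ((m 0 + m 1) / ‖q 1 t - q 0 t‖ ^ 3
          + (m 0 + m 2) / ‖q 2 t - q 0 t‖ ^ 3 + (m 1 + m 2) / ‖q 2 t - q 1 t‖ ^ 3)
        + m 2 * ‖q 2 t - q 0 t‖ ^ 2 * (1 / ‖q 2 t - q 1 t‖ ^ 3 - 1 / ‖q 2 t - q 0 t‖ ^ 3)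
        + m 1 * ‖q 1 t - q 0 t‖ ^ 2 * (1 / ‖q 2 t - q 1 t‖ ^ 3 - 1 / ‖q 1 t - q 0 t‖ ^ 3) := by
  rw [nsq (q 2 t - q 0 t), nsq (q 1 t - q 0 t)]
  simp only [acc, f3_01, f3_11, f3_21, f3_02, f3_12, f3_22]
  rw [norm_sub_rev (q 0 t) (q 2 t), norm_sub_rev (q 0 t) (q 1 t), norm_sub_rev (q 1 t) (q 2 t)]
  simp only [div_eq_mul_inv, dt, Complex.sub_re, Complex.sub_im, Complex.add_re, Complex.add_im,
    Complex.re_ofReal_mul, Complex.im_ofReal_mul]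
  ring

/-- (PSI) -/
theorem t_PSI (hB : S_BAS) : S_PSI := by
  intro m hm δ V hδ hV
  obtain ⟨C0, hC0, hBas⟩ := hB m hm
  have h0 := hm 0
  have h1 := hm 1
  have h2 := hm 2
  have hC00 : 0 < C0 := by linarith
  obtain ⟨κ, c, hκ, hc, key⟩ := real_est (m 0) (m 1) (m 2) δ C0 V
    ((m 1 * m 2 + m 2 * m 0 + m 0 * m 1) / δ) h0 h1 h2 hδ hC00 hV (by positivity)
  set S := 1 / √(m 0) + 1 / √(m 1) + 1 / √(m 2) with hS
  have q0 : 0 < √(m 0) := Real.sqrt_pos.2 h0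
  have q1 : 0 < √(m 1) := Real.sqrt_pos.2 h1
  have q2 : 0 < √(m 2) := Real.sqrt_pos.2 h2
  have hS0 : 0 < S := by positivity
  refine ⟨κ, c, 2 * S * C0 + 2 * S ^ 2, hκ, hc, by positivity, ?_⟩
  intro E q v hSol hSpd t hEρ hD hψ
  have B := hBas E q v hSol
  have hρ := B.rpos t
  set ρ := rho m q t with hρd
  set Wt := W m q v t with hW
  have hW0 : 0 ≤ Wt := B.W0 t
  have hsW : 0 ≤ √Wt := Real.sqrt_nonneg _
  set k := J m q v t / ρ ^ 2 with hk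
  set e : Fin 3 → ℂ := fun a => v a t - (k : ℂ) * q a t with he
  have hea : ∀ a, ‖e a‖ ≤ √Wt / √(m a) := fun a => hSol.eta_le t a
  have he10 : ‖e 1 - e 0‖ ≤ √Wt * S := by
    have e1 := hea 1
    have e2 := hea 0
    calc ‖e 1 - e 0‖ ≤ ‖e 1‖ + ‖e 0‖ := norm_sub_le _ _
      _ ≤ √Wt / √(m 1) + √Wt / √(m 0) := add_le_add e1 e2
      _ = √Wt * (1 / √(m 0) + 1 / √(m 1)) := by ring
      _ ≤ √Wt * S := by
        apply mul_le_mul_of_nonneg_left _ hsW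
        have : 0 < 1 / √(m 2) := by positivity
        rw [hS]; linarith
  have he20 : ‖e 2 - e 0‖ ≤ √Wt * S := by
    have e1 := hea 2
    have e2 := hea 0
    calc ‖e 2 - e 0‖ ≤ ‖e 2‖ + ‖e 0‖ := norm_sub_le _ _
      _ ≤ √Wt / √(m 2) + √Wt / √(m 0) := add_le_add e1 e2
      _ = √Wt * (1 / √(m 0) + 1 / √(m 2)) := by ring
      _ ≤ √Wt * S := by
        apply mul_le_mul_of_nonneg_left _ hsW
        have : 0 < 1 / √(m 1) := by positivity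
        rw [hS]; linarith
  have hpsi : psi q 0 t = dt (q 1 t - q 0 t) (q 2 t - q 0 t) := rfl
  have hA : ‖q 1 t - q 0 t‖ = D q 2 t := by
    unfold D; rw [f3_22, f3_21]
  have hBn : ‖q 2 t - q 0 t‖ = D q 1 t := by
    unfold D; rw [f3_12, f3_11, norm_sub_rev]
  have hw : ‖q 2 t - q 1 t‖ = D q 0 t := by
    unfold D; rw [f3_02, f3_01]
  have hHf : Hf m q v t = dt (e 1 - e 0) (q 2 t - q 0 t) + dt (q 1 t - q 0 t) (e 2 - e 0) := by
    unfold Hf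
    rw [hpsi, ← hρd, ← hk, he]
    simp only [dt, Complex.sub_re, Complex.sub_im, Complex.re_ofReal_mul, Complex.im_ofReal_mul]
    ring
  constructor
  · rw [hHf]
    calc |dt (e 1 - e 0) (q 2 t - q 0 t) + dt (q 1 t - q 0 t) (e 2 - e 0)|
        ≤ |dt (e 1 - e 0) (q 2 t - q 0 t)| + |dt (q 1 t - q 0 t) (e 2 - e 0)| := abs_add_le _ _
      _ ≤ ‖e 1 - e 0‖ * ‖q 2 t - q 0 t‖ + ‖q 1 t - q 0 t‖ * ‖e 2 - e 0‖ :=
          add_le_add (abs_dt_le _ _) (abs_dt_le _ _)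
      _ ≤ (√Wt * S) * (C0 * ρ) + (C0 * ρ) * (√Wt * S) := by
          apply add_le_add
          · apply mul_le_mul he10 _ (norm_nonneg _) (by positivity)
            rw [hBn]; exact B.Dle 1 t
          · apply mul_le_mul _ he20 (norm_nonneg _) (by positivity)
            rw [hA]; exact B.Dle 2 t
      _ = (2 * S * C0) * ρ * √Wt := by ring
      _ ≤ (2 * S * C0 + 2 * S ^ 2) * ρ * √Wt := by
          have : 0 ≤ 2 * S ^ 2 * ρ * √Wt := by positivity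
          linarith
  · have d10 := (hSol.dq 1 t).sub (hSol.dq 0 t)
    have d20 := (hSol.dq 2 t).sub (hSol.dq 0 t)
    have w10 := (hSol.dv 1 t).sub (hSol.dv 0 t)
    have w20 := (hSol.dv 2 t).sub (hSol.dv 0 t)
    have D1 := hasDerivAt_dt w10 d20
    have D2 := hasDerivAt_dt d10 w20
    have D3 := hasDerivAt_dt d10 d20
    have D4 := ((B.dJ t).div (B.dsq t) (by positivity)).const_mul 2
    have D5 := (D1.add D2).sub (D4.mul D3)
    refine ⟨_, D5.congr_of_eventuallyEq (Eventually.of_forall fun x => ?_), ?_⟩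
    · simp only [Hf, psi, Pi.sub_apply, Pi.add_apply, Pi.mul_apply, Pi.div_apply]
      rfl
    · have hU : U m q t ≤ ((m 1 * m 2 + m 2 * m 0 + m 0 * m 1) / δ) / ρ := by
        unfold U
        rw [Fin.sum_univ_three]
        simp only [f3_01, f3_11, f3_21, f3_02, f3_12, f3_22]
        have e : (m 1 * m 2 + m 2 * m 0 + m 0 * m 1) / δ / ρ =
            m 1 * m 2 / (δ * ρ) + m 2 * m 0 / (δ * ρ) + m 0 * m 1 / (δ * ρ) := by
          field_simp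
        rw [e]
        have g : ∀ (M : ℝ) (p : Fin 3), 0 ≤ M → M / D q p t ≤ M / (δ * ρ) := fun M p hM =>
          div_le_div_of_nonneg_left hM (by positivity) (hD p)
        have := g (m 1 * m 2) 0 (by positivity)
        have := g (m 2 * m 0) 1 (by positivity)
        have := g (m 0 * m 1) 2 (by positivity)
        linarith
      have hww : ‖q 2 t - q 1 t‖ ^ 2 = ‖q 1 t - q 0 t‖ ^ 2 + ‖q 2 t - q 0 t‖ ^ 2
          - 2 * dt (q 1 t - q 0 t) (q 2 t - q 0 t) := by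
        rw [nsq, nsq, nsq]
        simp only [dt, Complex.sub_re, Complex.sub_im]
        ring
      have K := key ρ ‖q 1 t - q 0 t‖ ‖q 2 t - q 0 t‖ ‖q 2 t - q 1 t‖
        (dt (q 1 t - q 0 t) (q 2 t - q 0 t)) E (U m q t) (J m q v t) hρ hSol.Epos hEρ
        (by rw [hA]; exact hD 2) (by rw [hBn]; exact hD 1) (by rw [hw]; exact hD 0)
        (by rw [hBn]; exact B.Dle 1 t) hww hψ (B.U0 t).le hU (hSpd t)
      rw [← force_psi] at K
      have hee : 2 * dt (e 1 - e 0) (e 2 - e 0) ≤ (2 * S * C0 + 2 * S ^ 2) * Wt := by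
        have g1 : dt (e 1 - e 0) (e 2 - e 0) ≤ ‖e 1 - e 0‖ * ‖e 2 - e 0‖ :=
          (le_abs_self _).trans (abs_dt_le _ _)
        have g2 : ‖e 1 - e 0‖ * ‖e 2 - e 0‖ ≤ (√Wt * S) * (√Wt * S) :=
          mul_le_mul he10 he20 (norm_nonneg _) (by positivity)
        have g3 : (√Wt * S) * (√Wt * S) = S ^ 2 * Wt := by
          rw [mul_mul_mul_comm, Real.mul_self_sqrt hW0]; ring
        have : 0 ≤ 2 * S * C0 * Wt := by positivity
        linarith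
      have hid : (dt (acc m q 1 t - acc m q 0 t) (q 2 t - q 0 t)
            + dt (v 1 t - v 0 t) (v 2 t - v 0 t))
          + (dt (v 1 t - v 0 t) (v 2 t - v 0 t) + dt (q 1 t - q 0 t) (acc m q 2 t - acc m q 0 t))
          - (2 * (((2 * E + U m q t) * ρ ^ 2 - J m q v t * (2 * J m q v t)) / (ρ ^ 2) ^ 2)
              * dt (q 1 t - q 0 t) (q 2 t - q 0 t)
            + 2 * (J m q v t / ρ ^ 2) * (dt (v 1 t - v 0 t) (q 2 t - q 0 t)
              + dt (q 1 t - q 0 t) (v 2 t - v 0 t)))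
          = (dt (acc m q 1 t - acc m q 0 t) (q 2 t - q 0 t)
              + dt (q 1 t - q 0 t) (acc m q 2 t - acc m q 0 t))
            - 2 * dt (q 1 t - q 0 t) (q 2 t - q 0 t) *
              ((2 * E + U m q t) / ρ ^ 2 - (J m q v t / ρ ^ 2) ^ 2)
            + 2 * dt (e 1 - e 0) (e 2 - e 0) := by
        have e1 : ((2 * E + U m q t) * ρ ^ 2 - J m q v t * (2 * J m q v t)) / (ρ ^ 2) ^ 2 =
            (2 * E + U m q t) / ρ ^ 2 - 2 * k ^ 2 := by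
          rw [hk]; field_simp
        rw [e1, ← hk, he]
        simp only [dt, Complex.sub_re, Complex.sub_im, Complex.re_ofReal_mul,
          Complex.im_ofReal_mul]
        ring
      have : ∀ x y : ℝ, x = y → y ≤ - c / ρ + (2 * S * C0 + 2 * S ^ 2) * Wt →
        x ≤ - c / ρ + (2 * S * C0 + 2 * S ^ 2) * Wt := fun x y h h' => h ▸ h'
      refine this _ _ hid ?_
      linarith

end Pool.Agent.J4H67.TB
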